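import Pool.Agent.PVD.StmtsL

/-! Squad PVD, block L, row CNT: continuity of the support numbers and of the entropy in the dual
vector. -/

set_option autoImplicit false
open MeasureTheory Filter Topology

namespace Pool.Agent.PVD.L.H3

theorem fm_cont_m (e t : ℝ) : Continuous fun m : Fin 4 → ℝ => fm e m t := by
  unfold fm
  exact continuous_finset_sum _ fun i _ => (continuous_apply i).mul continuous_const

theorem cl_le_one {e t : ℝ} (h0 : 0 < e) (h1 : e < 1) (ht0 : 0 ≤ t) (ht1 : t ≤ 1) (i : Fin 4) :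
    cl e i t ≤ 1 := by
  by_cases hi : i = 0
  · rw [hi, cl_zero]
    linarith
  · exact (cl_le h0 h1 ht0 i hi).trans ht1

theorem fm_lo {e t : ℝ} (h0 : 0 < e) (h1 : e < 1) (ht0 : 0 ≤ t) (ht1 : t ≤ 1) {m : Fin 4 → ℝ}
    (m0 : 0 ≤ m 0) (m2 : 0 ≤ m 2) (m3 : 0 ≤ m 3) : m 0 * (1 - t) + m 1 * t ≤ fm e m t := by
  rw [fm_eq]
  have h2 := cl_nonneg h0 h1 ht0 ht1 2
  have h3 := cl_nonneg h0 h1 ht0 ht1 3
  rw [cl_two] at h2
  rw [cl_three] at h3
  have h4 := mul_nonneg m2 h2
  have h5 := mul_nonneg m3 h3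
  linarith

theorem fm_lo' {e t : ℝ} (h0 : 0 < e) (h1 : e < 1) (ht0 : 0 ≤ t) (ht1 : t ≤ 1) {m : Fin 4 → ℝ}
    (m0 : 0 ≤ m 0) (m2 : 0 ≤ m 2) (m3 : 0 ≤ m 3) : m 1 * t ≤ fm e m t := by
  have h2 := fm_lo h0 h1 ht0 ht1 m0 m2 m3
  have h3 := mul_nonneg m0 (by linarith : (0:ℝ) ≤ 1 - t)
  linarith

theorem fm_hi {e t : ℝ} (h0 : 0 < e) (h1 : e < 1) (ht0 : 0 ≤ t) (ht1 : t ≤ 1) {m : Fin 4 → ℝ}
    (hm : ∀ i, 0 ≤ m i) {m' : Fin 4 → ℝ} (hmm : ∀ i, m i ≤ m' i + 1) :
    fm e m t ≤ ∑ i, (m' i + 1) := by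
  unfold fm
  apply Finset.sum_le_sum
  intro i _
  have h2 := cl_nonneg h0 h1 ht0 ht1 i
  have h3 := cl_le_one h0 h1 ht0 ht1 i
  nlinarith [hm i, hmm i, mul_le_mul_of_nonneg_left h3 (hm i)]

theorem meas (e : ℝ) (m : Fin 4 → ℝ) : Measurable (fm e m) := (fm_cont e m).measurable

theorem ev_gt {m' : Fin 4 → ℝ} (S : Set (Fin 4 → ℝ)) (i : Fin 4) {r : ℝ} (h : r < m' i) :
    ∀ᶠ m in 𝓝[S] m', r < m i :=
  ((continuous_apply i).continuousAt.eventually (lt_mem_nhds h)).filter_mono nhdsWithin_le_nhds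

theorem ev_lt {m' : Fin 4 → ℝ} (S : Set (Fin 4 → ℝ)) (i : Fin 4) {r : ℝ} (h : m' i < r) :
    ∀ᶠ m in 𝓝[S] m', m i < r :=
  ((continuous_apply i).continuousAt.eventually (gt_mem_nhds h)).filter_mono nhdsWithin_le_nhds

theorem cnt : CntStmt := by
  intro e h0 h1'
  have h1 : e < 1 := by linarith
  refine ⟨?_, ?_, ?_⟩
  · intro i hi m' hm'
    obtain ⟨p0, p1, p2, p3⟩ := hm'
    refine intervalIntegral.continuousWithinAt_of_dominated_interval
      (bound := fun _ => 2 / m' 1) ?_ ?_ intervalIntegrable_const ?_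
    · exact Eventually.of_forall fun m =>
        ((cl_cont e i).measurable.div (meas e m)).aestronglyMeasurable
    · filter_upwards [self_mem_nhdsWithin, ev_gt DL 1 (half_lt_self p1)] with m hm hm1
      obtain ⟨q0, q1, q2, q3⟩ := hm
      refine Eventually.of_forall fun t ht => ?_
      rw [Set.uIoc_of_le zero_le_one] at ht
      have a1 := fm_lo' h0 h1 ht.1.le ht.2 q0 q2 q3
      have a2 := cl_nonneg h0 h1 ht.1.le ht.2 i
      have a3 := cl_le h0 h1 ht.1.le i hi
      have a4 : 0 < m 1 * t := mul_pos q1 ht.1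
      rw [Real.norm_eq_abs, abs_of_nonneg (div_nonneg a2 (a4.le.trans a1)),
        div_le_div_iff₀ (a4.trans_le a1) p1]
      have a5 : m' 1 * t ≤ 2 * (m 1 * t) := by nlinarith [ht.1]
      nlinarith [mul_le_mul_of_nonneg_right a3 p1.le]
    · refine Eventually.of_forall fun t ht => ?_
      rw [Set.uIoc_of_le zero_le_one] at ht
      have a1 := fm_lo' h0 h1 ht.1.le ht.2 p0 p2 p3
      have a4 : 0 < m' 1 * t := mul_pos p1 ht.1
      exact (continuousAt_const.div (fm_cont_m e t).continuousAt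
        (a4.trans_le a1).ne').continuousWithinAt
  · intro m' hm'
    obtain ⟨p0, p1, p2, p3⟩ := hm'
    have hd : 0 < min (m' 0) (m' 1) / 2 := half_pos (lt_min p0 p1)
    refine intervalIntegral.continuousWithinAt_of_dominated_interval
      (bound := fun _ => 1 / (min (m' 0) (m' 1) / 2)) ?_ ?_ intervalIntegrable_const ?_
    · exact Eventually.of_forall fun m =>
        ((cl_cont e 0).measurable.div (meas e m)).aestronglyMeasurable
    · have b0 : min (m' 0) (m' 1) / 2 < m' 0 := by
        have := min_le_left (m' 0) (m' 1)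
        linarith
      have b1 : min (m' 0) (m' 1) / 2 < m' 1 := by
        have := min_le_right (m' 0) (m' 1)
        linarith
      filter_upwards [self_mem_nhdsWithin, ev_gt DK 0 b0, ev_gt DK 1 b1] with m hm hm0 hm1
      obtain ⟨q0, q1, q2, q3⟩ := hm
      refine Eventually.of_forall fun t ht => ?_
      rw [Set.uIoc_of_le zero_le_one] at ht
      have a1 := fm_lo h0 h1 ht.1.le ht.2 q0.le q2 q3
      have a2 := cl_nonneg h0 h1 ht.1.le ht.2 0
      have a3 := cl_le_one h0 h1 ht.1.le ht.2 0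
      have a4 : min (m' 0) (m' 1) / 2 ≤ fm e m t := by nlinarith [ht.1, ht.2]
      rw [Real.norm_eq_abs, abs_of_nonneg (div_nonneg a2 (hd.le.trans a4))]
      exact div_le_div₀ zero_le_one a3 hd a4
    · refine Eventually.of_forall fun t ht => ?_
      rw [Set.uIoc_of_le zero_le_one] at ht
      have a1 := fm_lo' h0 h1 ht.1.le ht.2 p0.le p2 p3
      have a4 : 0 < m' 1 * t := mul_pos p1 ht.1
      exact (continuousAt_const.div (fm_cont_m e t).continuousAt
        (a4.trans_le a1).ne').continuousWithinAt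
  · intro m' hm'
    obtain ⟨p0, p1, p2, p3⟩ := hm'
    refine ContinuousWithinAt.neg ?_
    refine intervalIntegral.continuousWithinAt_of_dominated_interval
      (bound := fun t => |Real.log (m' 1 / 2)| + |Real.log (∑ i, (m' i + 1))| + |Real.log t|)
      ?_ ?_ ?_ ?_
    · exact Eventually.of_forall fun m =>
        (Real.measurable_log.comp (meas e m)).aestronglyMeasurable
    · filter_upwards [self_mem_nhdsWithin, ev_gt DL 1 (half_lt_self p1),
        ev_lt DL 0 (lt_add_one _), ev_lt DL 1 (lt_add_one _), ev_lt DL 2 (lt_add_one _),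
        ev_lt DL 3 (lt_add_one _)] with m hm hm1 r0 r1 r2 r3
      obtain ⟨q0, q1, q2, q3⟩ := hm
      refine Eventually.of_forall fun t ht => ?_
      rw [Set.uIoc_of_le zero_le_one] at ht
      have a1 := fm_lo' h0 h1 ht.1.le ht.2 q0 q2 q3
      have a2 : m' 1 / 2 * t ≤ fm e m t := by nlinarith [ht.1]
      have a3 : 0 < m' 1 / 2 * t := mul_pos (half_pos p1) ht.1
      have a4 : fm e m t ≤ ∑ i, (m' i + 1) := by
        refine fm_hi h0 h1 ht.1.le ht.2 ?_ ?_
        · intro i
          fin_cases i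
          · exact q0
          · exact q1.le
          · exact q2
          · exact q3
        · intro i
          fin_cases i
          · exact r0.le
          · exact r1.le
          · exact r2.le
          · exact r3.le
      have a5 := Real.log_le_log a3 a2
      have a6 := Real.log_le_log (a3.trans_le a2) a4
      rw [Real.log_mul (half_pos p1).ne' ht.1.ne'] at a5
      rw [Real.norm_eq_abs, abs_le]
      have c1 := neg_abs_le (Real.log (m' 1 / 2))
      have c2 := neg_abs_le (Real.log t)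
      have c3 := le_abs_self (Real.log (∑ i, (m' i + 1)))
      have c4 := abs_nonneg (Real.log (∑ i, (m' i + 1)))
      have c5 := abs_nonneg (Real.log (m' 1 / 2))
      have c6 := abs_nonneg (Real.log t)
      constructor <;> linarith
    · exact (intervalIntegrable_const.add intervalIntegrable_const).add
        intervalIntegral.intervalIntegrable_log'.abs
    · refine Eventually.of_forall fun t ht => ?_
      rw [Set.uIoc_of_le zero_le_one] at ht
      have a1 := fm_lo' h0 h1 ht.1.le ht.2 p0 p2 p3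
      have a4 : 0 < m' 1 * t := mul_pos p1 ht.1
      exact ((fm_cont_m e t).continuousAt.log (a4.trans_le a1).ne').continuousWithinAt

end Pool.Agent.PVD.L.H3
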