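import Pool.Agent.PVD.StmtsG

/-! Squad PVD, block G, row FEQ: equal polytopes have equal facet areas. -/

set_option autoImplicit false

open MeasureTheory Metric Set Filter Topology

namespace PVD.H3

open PV PV3

theorem pr_bdd {n : ℕ} (w : E n) {S : Set (E n)} (hS : Bornology.IsBounded S) :
    Bornology.IsBounded (Pr w S) := by
  obtain ⟨R, hR⟩ := hS.exists_norm_le
  rw [isBounded_iff_forall_norm_le]
  refine ⟨R + R * ‖w‖ * ‖w‖ + ‖w‖, ?_⟩
  rintro y ⟨x, hx, s, hs, rfl⟩
  have h1 := hR x hx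
  have h2 : ‖(inner ℝ x w : ℝ) • w‖ ≤ R * ‖w‖ * ‖w‖ := by
    rw [norm_smul]
    apply mul_le_mul_of_nonneg_right _ (norm_nonneg w)
    exact (norm_inner_le_norm x w).trans (mul_le_mul_of_nonneg_right h1 (norm_nonneg w))
  have h3 : ‖s • w‖ ≤ ‖w‖ := by
    rw [norm_smul, Real.norm_eq_abs, abs_of_nonneg hs.1]
    exact mul_le_of_le_one_left (norm_nonneg w) hs.2
  calc ‖proj w x + s • w‖ ≤ ‖proj w x‖ + ‖s • w‖ := norm_add_le _ _
    _ ≤ (‖x‖ + ‖(inner ℝ x w : ℝ) • w‖) + ‖s • w‖ := by
        gcongr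
        exact norm_sub_le _ _
    _ ≤ R + R * ‖w‖ * ‖w‖ + ‖w‖ := by linarith

theorem vol_zero {n : ℕ} (w : E n) {S : Set (E n)} (hS : Bornology.IsBounded S)
    (h : ar w S = 0) : volume (Pr w S) = 0 := by
  have h1 : volume (Pr w S) < ⊤ := (pr_bdd w hS).measure_lt_top
  rcases (ENNReal.toReal_eq_zero_iff _).1 h with h2 | h2
  · exact h2
  · exact absurd h2 h1.ne

theorem half (hAN : PV3.ANStmt) {n : ℕ} (U : Finset (E n)) (c c' : E n → ℝ) (hU : Un U)
    (hB : Bd U) (h : Pl U c = Pl U c') (w : E n) (hw : w ∈ U) (hlt : c w < c' w) :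
    fa U c w = 0 ∧ fa U c' w = 0 := by
  classical
  constructor
  · have hbd : Bornology.IsBounded (Fc U c w) := (hB c).subset fun x hx => hx.1
    have key : ∀ x ∈ Fc U c w, ∃ w' ∈ U, w' ≠ w ∧ 0 < (inner ℝ w w' : ℝ) ∧
        (inner ℝ x w' : ℝ) = c' w' := by
      intro x hx
      by_contra hcon
      push Not at hcon
      have hx' : x ∈ Pl U c' := h ▸ hx.1
      have h1 : ∀ᶠ e : ℝ in 𝓝[>] 0, ∀ w' ∈ U, (inner ℝ (x + e • w) w' : ℝ) ≤ c' w' := by
        rw [Filter.eventually_all_finset]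
        intro w' hw'
        by_cases hp : 0 < (inner ℝ w w' : ℝ)
        · have h2 : (inner ℝ x w' : ℝ) < c' w' := by
            by_cases he : w' = w
            · rw [he, hx.2]
              exact hlt
            · exact lt_of_le_of_ne (hx' w' hw') (hcon w' hw' he hp)
          have h3 : Continuous fun e : ℝ => (inner ℝ (x + e • w) w' : ℝ) := by fun_prop
          have h4 : (inner ℝ (x + (0 : ℝ) • w) w' : ℝ) < c' w' := by
            rw [zero_smul, add_zero]
            exact h2
          exact ((h3.continuousAt.eventually (gt_mem_nhds h4)).filter_mono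
            nhdsWithin_le_nhds).mono fun e he => he.le
        · filter_upwards [self_mem_nhdsWithin] with e he
          have he' : (0 : ℝ) < e := he
          rw [inner_add_left, real_inner_smul_left]
          have h2 := hx' w' hw'
          have h3 : e * (inner ℝ w w' : ℝ) ≤ 0 := mul_nonpos_of_nonneg_of_nonpos he'.le (not_lt.1 hp)
          linarith
      obtain ⟨e, h2, h3⟩ := (h1.and self_mem_nhdsWithin).exists
      have h3' : (0 : ℝ) < e := h3
      have h4 : x + e • w ∈ Pl U c := by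
        rw [h]
        exact h2
      have h5 := h4 w hw
      rw [inner_add_left, real_inner_smul_left, hx.2, real_inner_self_eq_norm_sq, hU w hw] at h5
      linarith
    have hsub : Pr w (Fc U c w) ⊆ ⋃ w' ∈ U.filter fun w' => w' ≠ w ∧ 0 < (inner ℝ w w' : ℝ),
        Pr w {x | x ∈ Fc U c w ∧ (inner ℝ x w' : ℝ) = c' w'} := by
      rintro y ⟨x, hx, s, hs, rfl⟩
      obtain ⟨w', hw', h1, h2, h3⟩ := key x hx
      simp only [Set.mem_iUnion]
      exact ⟨w', Finset.mem_filter.2 ⟨hw', h1, h2⟩, x, ⟨hx, h3⟩, s, hs, rfl⟩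
    have hz : volume (⋃ w' ∈ U.filter fun w' => w' ≠ w ∧ 0 < (inner ℝ w w' : ℝ),
        Pr w {x | x ∈ Fc U c w ∧ (inner ℝ x w' : ℝ) = c' w'}) = 0 := by
      refine le_antisymm ((measure_biUnion_finset_le _ _).trans (le_of_eq ?_)) zero_le'
      refine Finset.sum_eq_zero fun w' hw' => ?_
      have hw'' := Finset.mem_filter.1 hw'
      refine vol_zero w (hbd.subset fun x hx => hx.1) ?_
      refine (hAN n w (hU w hw)).1 _ w' (c w) (c' w') (hU w' hw''.1) hw''.2.1 ?_ ?_
      · rintro rfl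
        have h1 := hw''.2.2
        rw [inner_neg_right, real_inner_self_eq_norm_sq] at h1
        have h2 := sq_nonneg ‖w‖
        linarith
      · intro x hx
        exact ⟨hx.1.2, hx.2⟩
    have h1 : volume (Pr w (Fc U c w)) = 0 := measure_mono_null hsub hz
    show (volume (Pr w (Fc U c w))).toReal = 0
    rw [h1]
    rfl
  · have h1 : Fc U c' w = ∅ := by
      rw [Set.eq_empty_iff_forall_notMem]
      rintro x ⟨hx, hx'⟩
      rw [← h] at hx
      have := hx w hw
      linarith
    have h2 : Pr w (∅ : Set (E n)) = ∅ := by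
      rw [Set.eq_empty_iff_forall_notMem]
      rintro y ⟨x, hx, -⟩
      exact hx
    show (volume (Pr w (Fc U c' w))).toReal = 0
    rw [h1, h2, measure_empty]
    rfl

theorem feq (hAN : PV3.ANStmt) : FEQStmt := by
  intro n U c c' hU hB h w hw
  rcases lt_trichotomy (c w) (c' w) with hlt | heq | hgt
  · obtain ⟨h1, h2⟩ := half hAN U c c' hU hB h w hw hlt
    rw [h1, h2]
  · have h1 : Fc U c w = Fc U c' w := by
      unfold Fc
      rw [h, heq]
    unfold fa
    rw [h1]
  · obtain ⟨h1, h2⟩ := half hAN U c' c hU hB h.symm w hw hgt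
    rw [h1, h2]

end PVD.H3
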