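import Pool.Agent.PVD.StmtsM2

/-! Squad PVD, block M2, row MB1: combinatorics of the classes. -/

set_option autoImplicit false

namespace Pool.Agent.PVD.M.H3

open Pool.Agent.PVD.L

theorem cm0 (k m : ℕ) : cm k m 0 = 1 := rfl
theorem cm1 (k m : ℕ) : cm k m 1 = nn k m := rfl
theorem cm2 (k m : ℕ) : cm k m 2 = m := rfl
theorem cm3 (k m : ℕ) : cm k m 3 = nn k m + 1 - m := rfl

theorem mb1 : Mb1Stmt := by
  intro k m hk hm
  have h1 : 129 * m ≤ k * m := Nat.mul_le_mul_right m hk
  have h2 : nn k m + 1 = k * m := by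
    unfold nn
    omega
  set n : ℕ := nn k m with hn
  have a1 : m < n + 1 - m := by omega
  have a2 : n + 1 - m < n := by omega
  have a3 : 1 < m := by omega
  have a4 : 2 * m < n + 1 := by omega
  have a5 : 2 < n := by omega
  have hinj : Function.Injective (cm k m) := by
    intro i j hij
    fin_cases i <;> fin_cases j <;> first
      | rfl
      | (exfalso
         simp only [Fin.zero_eta, Fin.mk_one, Fin.reduceFinMk, cm0, cm1, cm2, cm3, ← hn] at hij
         omega)
  have hrange : ∀ i, 1 ≤ cm k m i ∧ cm k m i ≤ n := by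
    intro i
    fin_cases i <;> simp only [Fin.zero_eta, Fin.mk_one, Fin.reduceFinMk, cm0, cm1, cm2, cm3, ← hn] <;> omega
  refine ⟨hinj, ?_, a5, a4, ?_, ?_, ?_, ?_, ?_, ?_, ?_⟩
  · exact_mod_cast h2
  · intro A hA
    refine ⟨hA.image _, ?_⟩
    intro r hr
    obtain ⟨i, -, rfl⟩ := Finset.mem_image.1 hr
    exact hrange i
  · intro h i
    fin_cases i
    · show Hn k m h (cm k m 0) = sc k m 0 * h 0
      rw [cm0]
      unfold Hn
      rw [if_pos rfl]
      show h 0 = 1 * h 0
      rw [one_mul]
    · show Hn k m h (cm k m 1) = sc k m 1 * h 1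
      rw [cm1, ← hn]
      unfold Hn
      rw [if_neg (by omega), ← hn, if_pos rfl]
      show h 1 = 1 * h 1
      rw [one_mul]
    · show Hn k m h (cm k m 2) = sc k m 2 * h 2
      rw [cm2]
      unfold Hn
      rw [if_neg (by omega), ← hn, if_neg (by omega), if_pos rfl]
      rfl
    · show Hn k m h (cm k m 3) = sc k m 3 * h 3
      rw [cm3, ← hn]
      unfold Hn
      rw [if_neg (by omega), ← hn, if_neg (by omega), if_neg (by omega), if_pos rfl]
      rfl
  · have hkm : (0 : ℝ) < (k : ℝ) * m := by
      have hk0 : (0 : ℝ) < k := by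
        have : 0 < k := by omega
        exact_mod_cast this
      have hm0 : (0 : ℝ) < m := by
        have : 0 < m := by omega
        exact_mod_cast this
      exact mul_pos hk0 hm0
    intro i
    fin_cases i
    · exact one_pos
    · exact one_pos
    · exact hkm
    · exact hkm
  · ext r
    unfold CR _root_.PVD.R4
    rw [Finset.mem_image]
    simp only [Finset.mem_insert, Finset.mem_singleton]
    constructor
    · rintro ⟨i, -, rfl⟩
      fin_cases i
      · exact Or.inr (Or.inl rfl)
      · exact Or.inl rfl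
      · exact Or.inr (Or.inr (Or.inl rfl))
      · exact Or.inr (Or.inr (Or.inr rfl))
    · rintro (rfl | rfl | rfl | rfl)
      · exact ⟨1, Finset.mem_univ _, rfl⟩
      · exact ⟨0, Finset.mem_univ _, rfl⟩
      · exact ⟨2, Finset.mem_univ _, rfl⟩
      · exact ⟨3, Finset.mem_univ _, rfl⟩
  · have h3 : AK = Finset.univ.erase (3 : Fin 4) := by decide
    rw [h3]
    unfold CR
    rw [Finset.image_erase hinj, cm3, ← hn]
  · have h3 : AL = Finset.univ.erase (0 : Fin 4) := by decide
    rw [h3]
    unfold CR
    rw [Finset.image_erase hinj, cm0]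
  · intro A g
    exact Finset.sum_image fun i _ j _ h => hinj h

end Pool.Agent.PVD.M.H3
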